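import Pool.Agent.H522R3.UT.Stmts

set_option autoImplicit false

/-! # T4: continuous majorants of a bounded upper semicontinuous function -/

open Set Filter Topology Metric MeasureTheory

namespace Pool.Agent.H023R3.UT

open Pool.Agent.H522R3.UT

/-- the Lipschitz regularisation -/
noncomputable def reg (g : ℝ → ℝ) (k : ℕ) (θ : ℝ) : ℝ := ⨆ s, (g s - k * |θ - s|)

section
variable {g : ℝ → ℝ} {m S : ℝ}

lemma reg_bdd (hS : ∀ θ, g θ ≤ S) (k : ℕ) (θ : ℝ) :
    BddAbove (range fun s => g s - k * |θ - s|) := by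
  refine ⟨S, ?_⟩
  rintro _ ⟨s, rfl⟩
  have h1 := hS s
  have h2 : 0 ≤ (k : ℝ) * |θ - s| := by positivity
  simp only
  linarith

lemma le_reg (hS : ∀ θ, g θ ≤ S) (k : ℕ) (θ s : ℝ) : g s - k * |θ - s| ≤ reg g k θ :=
  le_ciSup (reg_bdd hS k θ) s

lemma self_le_reg (hS : ∀ θ, g θ ≤ S) (k : ℕ) (θ : ℝ) : g θ ≤ reg g k θ := by
  have h := le_reg hS k θ θ
  simpa using h

lemma reg_le (hS : ∀ θ, g θ ≤ S) (k : ℕ) (θ : ℝ) : reg g k θ ≤ S := by
  refine ciSup_le fun s => ?_
  have h1 := hS s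
  have h2 : 0 ≤ (k : ℝ) * |θ - s| := by positivity
  linarith

lemma reg_lip (hS : ∀ θ, g θ ≤ S) (k : ℕ) : LipschitzWith k (reg g k) := by
  apply LipschitzWith.of_le_add_mul
  intro θ θ'
  refine ciSup_le fun s => ?_
  have h1 := le_reg hS k θ' s
  have h2 : |θ' - s| ≤ |θ - s| + |θ - θ'| := by
    have := abs_sub_le θ' θ s
    rw [abs_sub_comm θ' θ] at this
    linarith
  have h3 : (k : ℝ) * |θ' - s| ≤ k * |θ - s| + k * |θ - θ'| := by
    rw [← mul_add]
    exact mul_le_mul_of_nonneg_left h2 (Nat.cast_nonneg k)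
  have h4 : (((k : ℕ) : NNReal) : ℝ) = (k : ℝ) := NNReal.coe_natCast k
  rw [Real.dist_eq, h4]
  linarith

lemma reg_tendsto (hg : UpperSemicontinuous g) (hm : ∀ θ, m ≤ g θ) (hS : ∀ θ, g θ ≤ S) (θ : ℝ) :
    Tendsto (fun k => reg g k θ) atTop (𝓝 (g θ)) := by
  rw [Metric.tendsto_atTop]
  intro δ hδ
  have h1 : ∀ᶠ s in 𝓝 θ, g s < g θ + δ / 2 := hg θ (g θ + δ / 2) (by linarith)
  obtain ⟨r, hr, h2⟩ := Metric.eventually_nhds_iff.1 h1
  obtain ⟨N, hN⟩ := exists_nat_ge ((S - m) / r)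
  refine ⟨N, fun k hk => ?_⟩
  have hk' : (S - m) / r ≤ k := hN.trans (by exact_mod_cast hk)
  rw [div_le_iff₀ hr] at hk'
  have h3 : reg g k θ ≤ g θ + δ / 2 := by
    refine ciSup_le fun s => ?_
    by_cases hs : dist s θ < r
    · have h4 := h2 hs
      have h5 : 0 ≤ (k : ℝ) * |θ - s| := by positivity
      linarith
    · push Not at hs
      rw [Real.dist_eq, abs_sub_comm] at hs
      have h4 := hS s
      have h5 := hm θ
      have h6 : (k : ℝ) * r ≤ k * |θ - s| := mul_le_mul_of_nonneg_left hs (Nat.cast_nonneg k)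
      linarith
  have h4 := self_le_reg hS k θ
  rw [Real.dist_eq, abs_lt]
  constructor <;> linarith

end

theorem T4_proof : T4 := by
  intro g m S hg hm hS ε hε
  have hb : ∀ k θ, ‖reg g k θ‖ ≤ |m| + |S| := by
    intro k θ
    have h1 := (hm θ).trans (self_le_reg hS k θ)
    have h2 := reg_le hS k θ
    rw [Real.norm_eq_abs, abs_le]
    constructor
    · linarith [neg_abs_le m, abs_nonneg S]
    · linarith [le_abs_self S, abs_nonneg m]
  have hlim : Tendsto (fun k => ∫ θ in (0 : ℝ)..(2 * Real.pi), reg g k θ) atTop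
      (𝓝 (∫ θ in (0 : ℝ)..(2 * Real.pi), g θ)) := by
    apply intervalIntegral.tendsto_integral_filter_of_dominated_convergence
      (fun _ => |m| + |S|)
    · exact Eventually.of_forall fun k =>
        ((reg_lip hS k).continuous.measurable.aestronglyMeasurable)
    · exact Eventually.of_forall fun k => Eventually.of_forall fun θ _ => hb k θ
    · exact intervalIntegrable_const
    · exact Eventually.of_forall fun θ _ => reg_tendsto hg hm hS θ
  obtain ⟨k, hk⟩ := (hlim.eventually (gt_mem_nhds (show (∫ θ in (0 : ℝ)..(2 * Real.pi), g θ) <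
    (∫ θ in (0 : ℝ)..(2 * Real.pi), g θ) + ε by linarith))).exists
  exact ⟨reg g k, (reg_lip hS k).continuous, self_le_reg hS k, hk.le⟩

end Pool.Agent.H023R3.UT
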